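import Mathlib

/-!
# Logarithmic-exponential transseries, part 1: the levels

We follow the construction of van den Dries, Macintyre and Marker (also Appendix A of the book of
Aschenbrenner, van den Dries and van der Hoeven).  A Hahn series `f : k⟦Λ⟧` is read as
`∑ f.coeff γ * exp (-γ)`; at level zero, where `Λ = ℝ`, it is read as `∑ f.coeff r * x ^ (-r)`.
-/

set_option autoImplicit false

open HahnSeries

noncomputable section

namespace Pool.Agent.MP_97be6c_lc

section Hahn

variable {Λ Λ' : Type} [AddCommGroup Λ] [LinearOrder Λ] [IsOrderedAddMonoid Λ]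
  [AddCommGroup Λ'] [LinearOrder Λ'] [IsOrderedAddMonoid Λ']

/-- The termwise derivation `∑ c_γ t^γ ↦ ∑ (θ c_γ - lam γ * c_γ) t^γ`: the monomial `t^γ` has
logarithmic derivative `- lam γ`. -/
def hder {R : Type} [CommRing R] (θ : R →+ R) (lam : Λ →+ R) : R⟦Λ⟧ →+ R⟦Λ⟧ where
  toFun f := ⟨fun γ => θ (f.coeff γ) - lam γ * f.coeff γ,
    f.isPWO_support.mono fun γ h h0 => h (by simp [h0])⟩
  map_zero' := by ext; simp
  map_add' f g := by ext; simp; ring

/-- The infinitesimal part of a series: the terms with exponent `γ > 0`. -/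
def small {R : Type} [CommRing R] (f : R⟦Λ⟧) : R⟦Λ⟧ := f - truncLT 0 f - C (f.coeff 0)

/-- `∑ ε ^ n / n!` for an infinitesimal series `ε`. -/
def expSeries {k : Type} [Field k] [CharZero k] (ε : k⟦Λ⟧) : k⟦Λ⟧ :=
  PowerSeries.heval ε (PowerSeries.exp k)

/-- The ring map `∑ c_γ t^γ ↦ ∑ φ(c_γ) t^(τ γ)`. -/
def hmap {R R' : Type} [CommRing R] [CommRing R'] (φ : R →+* R') (τ : Λ →+ Λ')
    (hτ : StrictMono τ) : R⟦Λ⟧ →+* R'⟦Λ'⟧ :=
  (embDomainRingHom τ hτ.injective fun _ _ => hτ.le_iff_le).comp
    { toFun := fun f => f.map φ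
      map_one' := by ext γ; by_cases h : γ = 0 <;> simp [h]
      map_mul' := fun _ _ => HahnSeries.map_mul φ.toNonUnitalRingHom
      map_zero' := by ext; simp
      map_add' := fun _ _ => by ext; simp }

end Hahn

/-- The data of one level: an ordered field `K`, the additive subgroup `A` of purely infinite
elements, the projection `pr` on `A`, the map `E f = exp (f - pr f)`, and `θ = x * d/dx`. -/
structure Stage where
  K : Type
  [field : Field K]
  [order : LinearOrder K]
  [ordered : IsStrictOrderedRing K]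
  A : AddSubgroup K
  pr : K →+ A
  E : K → K
  θ : K →+ K

attribute [instance] Stage.field Stage.order Stage.ordered

section Level

variable (Λ k : Type) [AddCommGroup Λ] [LinearOrder Λ] [IsOrderedAddMonoid Λ] [Field k]

/-- The purely infinite series: those with only negative exponents. -/
def pinf : AddSubgroup (Lex k⟦Λ⟧) where
  carrier := {f | ∀ γ, 0 ≤ γ → (ofLex f).coeff γ = 0}
  add_mem' := fun {f g} hf hg γ h => by simp [hf γ h, hg γ h]
  zero_mem' := fun γ _ => by simp
  neg_mem' := fun {f} hf γ h => by simp [hf γ h]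

/-- Keeping the terms with negative exponent. -/
def trunc : Lex k⟦Λ⟧ →+ Lex k⟦Λ⟧ where
  toFun f := toLex (truncLT 0 (ofLex f))
  map_zero' := map_zero (truncLT (0 : Λ))
  map_add' f g := truncLT_add 0 (ofLex f) (ofLex g)

omit [IsOrderedAddMonoid Λ] in
theorem trunc_mem (f : Lex k⟦Λ⟧) : trunc Λ k f ∈ pinf Λ k := fun _ h => coeff_truncLT_of_le h _

/-- The purely infinite part of a series. -/
def infPart : Lex k⟦Λ⟧ →+ pinf Λ k := (trunc Λ k).codRestrict (pinf Λ k) (trunc_mem Λ k)

/-- The inclusion of a coefficient field in its ordered Hahn field. -/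
def incl : k →+* Lex k⟦Λ⟧ where
  toFun c := toLex (C c)
  map_one' := map_one (C : k →+* k⟦Λ⟧)
  map_mul' := map_mul (C : k →+* k⟦Λ⟧)
  map_zero' := map_zero (C : k →+* k⟦Λ⟧)
  map_add' := map_add (C : k →+* k⟦Λ⟧)

variable {Λ k}

/-- The termwise derivation on the ordered Hahn field. -/
def hderLex (θ : k →+ k) (lam : Λ →+ k) : Lex k⟦Λ⟧ →+ Lex k⟦Λ⟧ where
  toFun f := toLex (hder θ lam (ofLex f))
  map_zero' := map_zero (hder θ lam)
  map_add' f g := map_add (hder θ lam) (ofLex f) (ofLex g)

/-- The exponential of the bounded part `c + ε` of a series, `exp c * ∑ ε ^ n / n!`, where `ex`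
is the exponential of the coefficient field. -/
def expBdd [CharZero k] (ex : k → k⟦Λ⟧) (f : Lex k⟦Λ⟧) : Lex k⟦Λ⟧ :=
  toLex (ex ((ofLex f).coeff 0) * expSeries (small (ofLex f)))

end Level

/-- The level given by the Hahn field `k⟦Λ⟧` with its lexicographic order, where `θ` is the
derivation of `k`, `- lam γ` the logarithmic derivative of `t^γ`, and `ex c` the exponential
of `c : k`. -/
abbrev hahn (Λ k : Type) [AddCommGroup Λ] [LinearOrder Λ] [IsOrderedAddMonoid Λ]
    [Field k] [LinearOrder k] [IsStrictOrderedRing k]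
    (θ : k →+ k) (lam : Λ →+ k) (ex : k → k⟦Λ⟧) : Stage where
  K := Lex k⟦Λ⟧
  A := pinf Λ k
  pr := infPart Λ k
  E := expBdd ex
  θ := hderLex θ lam

section Next

variable {K : Type} [Field K] [LinearOrder K] [IsStrictOrderedRing K] {A : AddSubgroup K}

/-- The exponential of an element `c` of a level, as a series in the monomials `exp (-a)`,
`a ∈ A`: it is `exp (c - pr c) * exp (pr c)`. -/
def expMon (pr : K →+ A) (E : K → K) (c : K) : K⟦A⟧ := single (-pr c) (E c)

/-- The same, as an element of the ordered Hahn field. -/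
def expLex (pr : K →+ A) (E : K → K) (c : K) : Lex K⟦A⟧ := toLex (expMon pr E c)

/-- The next level: series `∑ c_a exp (-a)` with `a ∈ A` and `c_a ∈ K`. -/
abbrev nextOf (pr : K →+ A) (E : K → K) (θ : K →+ K) : Stage :=
  hahn A K θ (θ.comp A.subtype) (expMon pr E)

end Next

/-- The level after `S`. -/
abbrev Stage.next (S : Stage) : Stage := nextOf S.pr S.E S.θ

/-- Level zero: series `∑ c_r x ^ (-r)` with real `r` and `c_r`. -/
abbrev base : Stage := hahn ℝ ℝ 0 (AddMonoidHom.id ℝ) fun c => C (Real.exp c)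

/-- The series `x = x ^ (-(-1))` at level zero. -/
def xBase : Lex ℝ⟦ℝ⟧ := toLex (single (-1) 1)

/-- The levels `ℝ[[x^ℝ]] = K 0 ⊆ K 1 ⊆ ⋯` of the field of exponential transseries. -/
def stage (m : ℕ) : Stage := Nat.rec base (fun _ S => S.next) m

/-- An embedding of ordered fields between two levels that respects the purely infinite parts. -/
structure Emb (S T : Stage) where
  φ : S.K →+* T.K
  mono : StrictMono φ
  maps : ∀ a ∈ S.A, φ a ∈ T.A

section

variable {Λ Λ' : Type} [AddCommGroup Λ] [LinearOrder Λ] [IsOrderedAddMonoid Λ]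
  [AddCommGroup Λ'] [LinearOrder Λ'] [IsOrderedAddMonoid Λ']

theorem hmap_coeff {R R' : Type} [CommRing R] [CommRing R'] (φ : R →+* R') (τ : Λ →+ Λ')
    (hτ : StrictMono τ) (f : R⟦Λ⟧) (γ : Λ) : (hmap φ τ hτ f).coeff (τ γ) = φ (f.coeff γ) :=
  embDomain_mk_coeff hτ.injective fun _ _ => hτ.le_iff_le

theorem hmap_coeff_of_notMem {R R' : Type} [CommRing R] [CommRing R'] (φ : R →+* R')
    (τ : Λ →+ Λ') (hτ : StrictMono τ) (f : R⟦Λ⟧) {γ : Λ'} (h : γ ∉ Set.range τ) :
    (hmap φ τ hτ f).coeff γ = 0 :=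
  embDomain_of_notMem_range h

theorem hmap_lt {k k' : Type} [Field k] [LinearOrder k] [Field k'] [LinearOrder k']
    (φ : k →+* k') (hφ : StrictMono φ) (τ : Λ →+ Λ') (hτ : StrictMono τ) {f g : k⟦Λ⟧}
    (h : toLex f < toLex g) : toLex (hmap φ τ hτ f) < toLex (hmap φ τ hτ g) := by
  obtain ⟨i, hi, hlt⟩ := (HahnSeries.lt_iff _ _).1 h
  refine (HahnSeries.lt_iff _ _).2 ⟨τ i, fun j hj => ?_, ?_⟩
  · by_cases hr : j ∈ Set.range τ
    · obtain ⟨j, rfl⟩ := hr
      simp only [ofLex_toLex, hmap_coeff]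
      exact congrArg φ (hi j (hτ.lt_iff_lt.1 hj))
    · simp only [ofLex_toLex, hmap_coeff_of_notMem _ _ _ _ hr]
  · simp only [ofLex_toLex, hmap_coeff]
    exact hφ hlt

section

variable {k k' : Type} [Field k] [LinearOrder k] [Field k'] [LinearOrder k']

/-- The map `hmap` between ordered Hahn fields. -/
def hmapLex (φ : k →+* k') (τ : Λ →+ Λ') (hτ : StrictMono τ) : Lex k⟦Λ⟧ →+* Lex k'⟦Λ'⟧ where
  toFun f := toLex (hmap φ τ hτ (ofLex f))
  map_one' := map_one (hmap φ τ hτ)
  map_mul' := map_mul (hmap φ τ hτ)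
  map_zero' := map_zero (hmap φ τ hτ)
  map_add' := map_add (hmap φ τ hτ)

theorem hmapLex_mono (φ : k →+* k') (hφ : StrictMono φ) (τ : Λ →+ Λ') (hτ : StrictMono τ) :
    StrictMono (hmapLex φ τ hτ) := fun _ _ h => hmap_lt φ hφ τ hτ h

omit [LinearOrder k] [LinearOrder k'] in
theorem hmapLex_maps (φ : k →+* k') (τ : Λ →+ Λ') (hτ : StrictMono τ) :
    ∀ a ∈ pinf Λ k, hmapLex φ τ hτ a ∈ pinf Λ' k' := fun a ha γ hγ => by
  by_cases hr : γ ∈ Set.range τ
  · obtain ⟨γ, rfl⟩ := hr
    refine (hmap_coeff φ τ hτ _ γ).trans ?_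
    have h0 : (ofLex a).coeff γ = 0 := ha γ (hτ.le_iff_le.1 (by simpa using hγ))
    exact (congrArg φ h0).trans (map_zero φ)
  · exact hmap_coeff_of_notMem φ τ hτ _ hr

/-- The embedding of Hahn levels induced by maps of coefficients and of exponents. -/
def hahnEmb [IsStrictOrderedRing k] [IsStrictOrderedRing k']
    {θ : k →+ k} {lam : Λ →+ k} {ex : k → k⟦Λ⟧} {θ' : k' →+ k'} {lam' : Λ' →+ k'}
    {ex' : k' → k'⟦Λ'⟧} (φ : k →+* k') (hφ : StrictMono φ) (τ : Λ →+ Λ') (hτ : StrictMono τ) :
    Emb (hahn Λ k θ lam ex) (hahn Λ' k' θ' lam' ex') where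
  φ := hmapLex φ τ hτ
  mono := hmapLex_mono φ hφ τ hτ
  maps := hmapLex_maps φ τ hτ

end

theorem incl_strictMono {k : Type} [Field k] [LinearOrder k] : StrictMono (incl Λ k) := by
  intro a b h
  refine (HahnSeries.lt_iff _ _).2 ⟨0, fun j hj => ?_, ?_⟩
  · exact (coeff_single_of_ne hj.ne).trans (coeff_single_of_ne hj.ne).symm
  · exact (coeff_single_same _ _).trans_lt (h.trans_eq (coeff_single_same _ _).symm)

end

section

variable {K K' : Type} [Field K] [LinearOrder K] [IsStrictOrderedRing K] {A : AddSubgroup K}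
  [Field K'] [LinearOrder K'] [IsStrictOrderedRing K'] {A' : AddSubgroup K'}

/-- The restriction of a ring map to additive subgroups. -/
def restr (φ : K →+* K') (h : ∀ a ∈ A, φ a ∈ A') : A →+ A' :=
  (φ.toAddMonoidHom.comp A.subtype).codRestrict A' fun a => h a a.2

omit [IsStrictOrderedRing K] [IsStrictOrderedRing K'] in
theorem restr_mono (φ : K →+* K') (hφ : StrictMono φ) (h : ∀ a ∈ A, φ a ∈ A') :
    StrictMono (restr φ h) := fun _ _ hab => hφ hab

/-- The induced embedding `∑ c_a exp (-a) ↦ ∑ φ(c_a) exp (-φ a)` of the next levels. -/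
def nextEmb {pr : K →+ A} {E : K → K} {θ : K →+ K} {pr' : K' →+ A'} {E' : K' → K'}
    {θ' : K' →+ K'} (φ : K →+* K') (hφ : StrictMono φ) (h : ∀ a ∈ A, φ a ∈ A') :
    Emb (nextOf pr E θ) (nextOf pr' E' θ') :=
  hahnEmb φ hφ (restr φ h) (restr_mono φ hφ h)

end

/-- The embedding of the next levels induced by an embedding of levels. -/
def Emb.next {S T : Stage} (e : Emb S T) : Emb S.next T.next := nextEmb e.φ e.mono e.maps

/-- The additive map `r ↦ r * x` on level zero. -/
def mulX : ℝ →+ Lex ℝ⟦ℝ⟧ where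
  toFun r := toLex (single (-1) r)
  map_zero' := map_zero (single (-1 : ℝ))
  map_add' a b := single_add (-1 : ℝ) a b

theorem mulX_mem (r : ℝ) : mulX r ∈ pinf ℝ ℝ := fun γ h => coeff_single_of_ne (by linarith)

/-- The map `r ↦ r * x` with values in the purely infinite part of level zero. -/
def timesX : ℝ →+ pinf ℝ ℝ := mulX.codRestrict (pinf ℝ ℝ) mulX_mem

theorem timesX_strictMono : StrictMono timesX := by
  intro a b h
  refine (HahnSeries.lt_iff _ _).2 ⟨-1, fun j hj => ?_, ?_⟩
  · exact (coeff_single_of_ne hj.ne).trans (coeff_single_of_ne hj.ne).symm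
  · exact (coeff_single_same _ _).trans_lt (h.trans_eq (coeff_single_same _ _).symm)

/-- The upward shift on level zero: `∑ c_r x ^ (-r) ↦ ∑ c_r exp (-(r * x))`. -/
def upZero : Emb base base.next :=
  hahnEmb (Λ := ℝ) (k := ℝ) (Λ' := pinf ℝ ℝ) (k' := Lex ℝ⟦ℝ⟧) (incl ℝ ℝ) incl_strictMono timesX
    timesX_strictMono

/-- The upward shift `f(x) ↦ f(exp x)` from level `m` to level `m + 1`. -/
def up (m : ℕ) : Emb (stage m) (stage (m + 1)) :=
  Nat.rec (motive := fun m => Emb (stage m) (stage (m + 1))) upZero (fun _ e => e.next) m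

/-- Order-preserving ring maps between ordered fields. -/
abbrev OHom (K K' : Type) [Field K] [LinearOrder K] [Field K'] [LinearOrder K'] : Type :=
  K →+*o K'

/-- An increasing sequence of ordered fields. -/
structure Chain where
  X : ℕ → Type
  [field : ∀ n, Field (X n)]
  [order : ∀ n, LinearOrder (X n)]
  f : ∀ n, OHom (X n) (X (n + 1))

attribute [instance] Chain.field Chain.order

namespace Chain

variable (c : Chain)

/-- The transition map from the `n`-th field to the next one. -/
def step (n : ℕ) (x : c.X n) : c.X (n + 1) := c.f n x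

/-- The type of the transition maps. -/
abbrev Tr (i j : ℕ) : Type := OHom (c.X i) (c.X j)

instance (i j : ℕ) : FunLike (c.Tr i j) (c.X i) (c.X j) := OrderRingHom.instFunLike

/-- The composite transition maps. -/
def map (i j : ℕ) (h : i ≤ j) : c.Tr i j :=
  Nat.leRec (motive := fun k _ => c.Tr i k) (OrderRingHom.id _) (fun k _ g => (c.f k).comp g) h

theorem map_self (i : ℕ) : c.map i i le_rfl = OrderRingHom.id _ := Nat.leRec_self _ _

theorem map_succ {i j : ℕ} (h : i ≤ j) (h' : i ≤ j + 1) :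
    c.map i (j + 1) h' = (c.f j).comp (c.map i j h) := Nat.leRec_succ _ _ h

instance directed : DirectedSystem c.X (c.map · · ·) where
  map_self i x := by rw [map_self]; rfl
  map_map k j i hij hjk x := by
    induction k, hjk using Nat.le_induction with
    | base => rw [map_self]; rfl
    | succ k hjk ih => rw [c.map_succ hjk, c.map_succ (hij.trans hjk)]; exact congrArg (c.f k) ih

/-- The union (direct limit) of the chain. -/
def Lim : Type := DirectLimit c.X c.map

instance : Field c.Lim := DirectLimit.instFieldOfRingHomClass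

/-- The inclusion of the `n`-th field in the union, as a ring map. -/
def ofHom (n : ℕ) : c.X n →+* c.Lim := DirectLimit.Ring.of c.X c.map n

/-- The inclusion of the `n`-th field in the union. -/
def of (n : ℕ) (x : c.X n) : c.Lim := c.ofHom n x

theorem lift_compat {Y : Type} (g : ∀ n, c.X n → Y) (hg : ∀ n x, g (n + 1) (c.step n x) = g n x)
    (i j : ℕ) (h : i ≤ j) (x : c.X i) : g i x = g j (c.map i j h x) := by
  induction j, h using Nat.le_induction with
  | base => rw [map_self]; rfl
  | succ j h ih => rw [c.map_succ h, ih]; exact (hg j _).symm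

/-- A map on the union given by compatible maps on the members of the chain. -/
def lift {Y : Type} (g : ∀ n, c.X n → Y) (hg : ∀ n x, g (n + 1) (c.step n x) = g n x) :
    c.Lim → Y := DirectLimit.lift c.map g (c.lift_compat g hg)

theorem of_map {i j : ℕ} (h : i ≤ j) (x : c.X i) : c.of j (c.map i j h x) = c.of i x :=
  DirectLimit.mk_apply i j x h

theorem of_succ (n : ℕ) (x : c.X n) : c.of (n + 1) (c.step n x) = c.of n x := by
  rw [← c.of_map n.le_succ x, c.map_succ le_rfl, map_self]; rfl

theorem map_mono {i j : ℕ} (h : i ≤ j) : StrictMono (c.map i j h) :=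
  (c.map i j h).monotone'.strictMono_of_injective (c.map i j h).toRingHom.injective

theorem exists_of₂ (a b : c.Lim) : ∃ n x y, a = c.of n x ∧ b = c.of n y :=
  DirectLimit.exists_eq_mk₂ c.map a b

theorem exists_of₃ (a b d : c.Lim) : ∃ n x y z, a = c.of n x ∧ b = c.of n y ∧ d = c.of n z :=
  DirectLimit.exists_eq_mk₃ c.map a b d

/-- The order of the union. -/
def lt (a b : c.Lim) : Prop := ∃ n x y, a = c.of n x ∧ b = c.of n y ∧ x < y

theorem lt_of {n : ℕ} {x y : c.X n} : c.lt (c.of n x) (c.of n y) ↔ x < y := by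
  refine ⟨?_, fun h => ⟨n, x, y, rfl, rfl, h⟩⟩
  rintro ⟨m, x', y', hx, hy, h⟩
  rw [← c.of_map (le_max_left n m), ← c.of_map (le_max_right n m)] at hx hy
  rw [← (c.map_mono (le_max_left n m)).lt_iff_lt, (c.ofHom _).injective hx,
    (c.ofHom _).injective hy]
  exact c.map_mono _ h

instance sto : IsStrictTotalOrder c.Lim c.lt where
  trichotomous a b h h' := by
    obtain ⟨n, x, y, rfl, rfl⟩ := c.exists_of₂ a b
    rw [lt_of] at h h'
    rw [(not_lt.1 h').antisymm (not_lt.1 h)]
  irrefl a h := by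
    obtain ⟨n, x, -, rfl, -⟩ := c.exists_of₂ a a
    exact lt_irrefl _ (c.lt_of.1 h)
  trans a b d h h' := by
    obtain ⟨n, x, y, z, rfl, rfl, rfl⟩ := c.exists_of₃ a b d
    exact c.lt_of.2 ((c.lt_of.1 h).trans (c.lt_of.1 h'))

instance : LinearOrder c.Lim := @linearOrderOfSTO _ c.lt c.sto (Classical.decRel _)

end Chain

end Pool.Agent.MP_97be6c_lc
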