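import Mathlib
import Pool.Agent.MP_97be6c_lc.Defs1

set_option autoImplicit false
set_option linter.unusedSectionVars false

open HahnSeries

noncomputable section

namespace Pool.Agent.MP_97be6c_lc

/-- The Leibniz rule. -/
def IsDer {R : Type} [CommRing R] (θ : R →+ R) : Prop := ∀ a b, θ (a * b) = a * θ b + θ a * b

namespace IsDer

variable {R : Type} [CommRing R] {θ : R →+ R}

theorem one (h : IsDer θ) : θ 1 = 0 := by
  have := h 1 1
  simpa using this

theorem natCast (h : IsDer θ) (n : ℕ) : θ n = 0 := by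
  rw [← nsmul_one, map_nsmul, h.one, smul_zero]

theorem pow_succ (h : IsDer θ) (a : R) (n : ℕ) : θ (a ^ (n + 1)) = (n + 1 : ℕ) * a ^ n * θ a := by
  induction n with
  | zero => simp
  | succ n ih => rw [_root_.pow_succ, h, ih]; push_cast; ring

theorem const_mul (h : IsDer θ) {c : R} (hc : θ c = 0) (a : R) : θ (c * a) = c * θ a := by
  rw [h, hc]; ring

theorem inv {k : Type} [Field k] {θ : k →+ k} (h : IsDer θ) (a : k) :
    θ a⁻¹ = -(θ a) * a⁻¹ * a⁻¹ := by
  by_cases ha : a = 0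
  · simp [ha]
  have h1 := h a a⁻¹
  rw [mul_inv_cancel₀ ha, h.one] at h1
  have : θ a⁻¹ = a⁻¹ * (a * θ a⁻¹) := by field_simp
  rw [this, eq_neg_of_add_eq_zero_left h1.symm]; ring

theorem ratAlg [Algebra ℚ R] (h : IsDer θ) (q : ℚ) : θ (algebraMap ℚ R q) = 0 := by
  rw [Algebra.algebraMap_eq_smul_one, map_rat_smul, h.one, smul_zero]

/-- Two solutions of the same first order homogeneous equation have a constant ratio. -/
theorem div_eq_zero {k : Type} [Field k] {θ : k →+ k} (h : IsDer θ) {y y' g : k}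
    (hy : θ y = g * y) (hy' : θ y' = g * y') (h0 : y' ≠ 0) : θ (y * y'⁻¹) = 0 := by
  rw [h, h.inv, hy, hy']; field_simp; ring

end IsDer

theorem finsum_nat_succ {M : Type} [AddCommMonoid M] (a : ℕ → M) (h0 : a 0 = 0) :
    ∑ᶠ n, a n = ∑ᶠ n, a (n + 1) := by
  rw [← finsum_mem_range (f := a) Nat.succ_injective, ← finsum_mem_univ]
  refine finsum_mem_inter_support_eq' _ _ _ fun x hx => ?_
  simp only [Set.mem_univ, Set.mem_range, true_iff]
  cases x with
  | zero => exact absurd h0 hx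
  | succ n => exact ⟨n, rfl⟩

section Hahn

variable {Λ Λ' : Type} [AddCommGroup Λ] [LinearOrder Λ] [IsOrderedAddMonoid Λ]
  [AddCommGroup Λ'] [LinearOrder Λ'] [IsOrderedAddMonoid Λ']
  {R R' : Type} [CommRing R] [CommRing R']

omit [IsOrderedAddMonoid Λ] in
@[simp] theorem hder_coeff (θ : R →+ R) (lam : Λ →+ R) (f : R⟦Λ⟧) (γ : Λ) :
    (hder θ lam f).coeff γ = θ (f.coeff γ) - lam γ * f.coeff γ := rfl

omit [IsOrderedAddMonoid Λ] in
theorem support_hder (θ : R →+ R) (lam : Λ →+ R) (f : R⟦Λ⟧) :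
    (hder θ lam f).support ⊆ f.support := fun γ h h0 => h (by simp [h0])

theorem IsDer.hder {θ : R →+ R} (h : IsDer θ) (lam : Λ →+ R) : IsDer (hder θ lam) := by
  intro f g
  ext γ
  rw [coeff_add, hder_coeff, coeff_mul_right' g.isPWO_support (support_hder θ lam g),
    coeff_mul_left' f.isPWO_support (support_hder θ lam f), coeff_mul, map_sum, Finset.mul_sum,
    ← Finset.sum_sub_distrib, ← Finset.sum_add_distrib]
  refine Finset.sum_congr rfl fun ij hij => ?_
  rw [← (Finset.mem_antidiagonal.1 hij).2.2, map_add, h, hder_coeff, hder_coeff]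
  ring

omit [IsOrderedAddMonoid Λ] in
theorem hder_single (θ : R →+ R) (lam : Λ →+ R) (γ : Λ) (c : R) :
    hder θ lam (single γ c) = single γ (θ c - lam γ * c) := by
  ext β
  by_cases h : β = γ
  · subst h; simp
  · simp [h]

theorem hder_C (θ : R →+ R) (lam : Λ →+ R) (c : R) :
    hder θ lam (C c : R⟦Λ⟧) = C (θ c) := by
  simp [C_apply, hder_single]

omit [IsOrderedAddMonoid Λ] in
theorem hder_hsum {α : Type} (θ : R →+ R) (lam : Λ →+ R) (s : SummableFamily Λ R α) (γ : Λ) :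
    (hder θ lam s.hsum).coeff γ = ∑ᶠ i, (hder θ lam (s i)).coeff γ := by
  let t : R →+ R := θ - AddMonoidHom.mulLeft (lam γ)
  have ht : ∀ f : R⟦Λ⟧, (hder θ lam f).coeff γ = t (f.coeff γ) := fun f => rfl
  simp only [ht, SummableFamily.coeff_hsum]
  exact t.map_finsum (s.finite_co_support γ)

/-- `f` has leading term `c t^γ` (if `c ≠ 0`). -/
def Lead (f : R⟦Λ⟧) (γ : Λ) (c : R) : Prop := f.coeff γ = c ∧ ∀ β, β < γ → f.coeff β = 0

omit [IsOrderedAddMonoid Λ] in
theorem exists_lead {f : R⟦Λ⟧} (hf : f ≠ 0) : ∃ γ c, c ≠ 0 ∧ Lead f γ c :=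
  ⟨f.order, f.coeff f.order, fun h => hf (coeff_order_eq_zero.1 h), rfl,
    fun _ h => coeff_eq_zero_of_lt_order h⟩

omit [AddCommGroup Λ] [IsOrderedAddMonoid Λ] in
theorem Lead.single (γ : Λ) (c : R) : Lead (single γ c) γ c :=
  ⟨coeff_single_same _ _, fun _ h => coeff_single_of_ne h.ne⟩

theorem Lead.mul {f g : R⟦Λ⟧} {α β : Λ} {c d : R} (hf : Lead f α c) (hg : Lead g β d) :
    Lead (f * g) (α + β) (c * d) := by
  have h1 : ∀ i ∈ f.support, α ≤ i := fun i hi => not_lt.1 fun h => hi (hf.2 i h)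
  have h2 : ∀ i ∈ g.support, β ≤ i := fun i hi => not_lt.1 fun h => hi (hg.2 i h)
  constructor
  · rw [coeff_mul, Finset.sum_eq_single (α, β)]
    · rw [hf.1, hg.1]
    · rintro ⟨i, j⟩ hij hne
      obtain ⟨hi, hj, hs⟩ := Finset.mem_antidiagonal.1 hij
      exfalso
      apply hne
      have hi' := h1 i hi
      have hj' := h2 j hj
      have e1 : i = α := by
        by_contra hne'
        exact absurd hs (add_lt_add_of_lt_of_le (lt_of_le_of_ne hi' (Ne.symm hne')) hj').ne'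
      subst e1
      have e2 : j = β := add_left_cancel hs
      rw [e2]
    · intro hn
      by_contra hne
      exact hn (Finset.mem_antidiagonal.2 ⟨left_ne_zero_of_mul hne, right_ne_zero_of_mul hne, rfl⟩)
  · intro γ hγ
    by_contra hne
    obtain ⟨i, hi, j, hj, rfl⟩ := support_mul_subset ((mem_support _ _).2 hne)
    exact absurd (add_le_add (h1 i hi) (h2 j hj)) (not_le.2 hγ)

omit [AddCommGroup Λ] [IsOrderedAddMonoid Λ] in
theorem Lead.unique {f : R⟦Λ⟧} {α β : Λ} {c d : R} (h : Lead f α c) (h' : Lead f β d)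
    (hc : c ≠ 0) (hd : d ≠ 0) : α = β ∧ c = d := by
  have : α = β := by
    rcases lt_trichotomy α β with hlt | heq | hlt
    · exact absurd (h.1.symm.trans (h'.2 α hlt)) hc
    · exact heq
    · exact absurd (h'.1.symm.trans (h.2 β hlt)) hd
  subst this
  exact ⟨rfl, h.1.symm.trans h'.1⟩

omit [IsOrderedAddMonoid Λ] in
theorem Lead.pos {k : Type} [Field k] [LinearOrder k] {f : k⟦Λ⟧} {γ : Λ} {c : k} (h : Lead f γ c)
    (hc : 0 < c) : 0 < toLex f :=
  (HahnSeries.lt_iff _ _).2 ⟨γ, fun j hj => (h.2 j hj).symm, hc.trans_eq h.1.symm⟩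

omit [IsOrderedAddMonoid Λ] in
theorem lead_of_pos {k : Type} [Field k] [LinearOrder k] {f : k⟦Λ⟧} (h : 0 < toLex f) :
    ∃ γ c, 0 < c ∧ Lead f γ c := by
  obtain ⟨γ, h1, h2⟩ := (HahnSeries.lt_iff _ _).1 h
  exact ⟨γ, f.coeff γ, h2, rfl, fun β hβ => (h1 β hβ).symm⟩

theorem small_coeff (f : R⟦Λ⟧) (γ : Λ) :
    (small f).coeff γ = if 0 < γ then f.coeff γ else 0 := by
  rcases lt_trichotomy γ 0 with h | h | h
  · simp [small, h, h.ne, not_lt.2 h.le]
  · subst h; simp [small]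
  · simp [small, h, h.ne', not_lt.2 h.le]

/-- Infinitesimal series. -/
def Inf (ε : R⟦Λ⟧) : Prop := ∀ γ, γ ≤ 0 → ε.coeff γ = 0

theorem inf_small (f : R⟦Λ⟧) : Inf (small f) := fun γ h => by
  rw [small_coeff, if_neg (not_lt.2 h)]

omit [IsOrderedAddMonoid Λ] in
theorem Inf.orderTop_pos {ε : R⟦Λ⟧} (h : Inf ε) : 0 < ε.orderTop := by
  by_cases h0 : ε = 0
  · simp [h0]
  · rw [zero_lt_orderTop_iff h0]
    by_contra hle
    exact h0 (coeff_order_eq_zero.1 (h _ (not_lt.1 hle)))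

theorem small_add (f g : R⟦Λ⟧) : small (f + g) = small f + small g := by
  ext γ; simp only [coeff_add, small_coeff]; split_ifs <;> simp

section Exp

variable {k : Type} [Field k] [CharZero k]

theorem expSeries_coeff {ε : k⟦Λ⟧} (h : Inf ε) (γ : Λ) :
    (expSeries ε).coeff γ = ∑ᶠ n : ℕ, (algebraMap ℚ k (1 / n.factorial) • ε ^ n).coeff γ := by
  rw [expSeries, PowerSeries.heval_apply, SummableFamily.coeff_hsum]
  refine finsum_congr fun n => ?_
  rw [SummableFamily.powerSeriesFamily_of_orderTop_pos h.orderTop_pos, PowerSeries.coeff_exp]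

theorem lead_expSeries {ε : k⟦Λ⟧} (h : Inf ε) : Lead (expSeries ε) 0 1 := by
  constructor
  · rw [expSeries, PowerSeries.coeff_heval_zero, PowerSeries.constantCoeff_exp]
  · intro β hβ
    rw [expSeries_coeff h]
    refine finsum_eq_zero_of_forall_eq_zero fun n => ?_
    have hl : Lead ε 0 0 := ⟨h 0 le_rfl, fun β hβ => h β hβ.le⟩
    have : ∀ n : ℕ, ∃ c, Lead (ε ^ n) 0 c := by
      intro n
      induction n with
      | zero => exact ⟨1, by simpa using Lead.single (0 : Λ) (1 : k)⟩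
      | succ n ih =>
        obtain ⟨c, hc⟩ := ih
        exact ⟨_, by simpa [pow_succ] using hc.mul hl⟩
    obtain ⟨c, hc⟩ := this n
    rw [coeff_smul, hc.2 β hβ, smul_zero]

theorem expSeries_zero : expSeries (0 : k⟦Λ⟧) = 1 := by
  rw [expSeries, PowerSeries.heval_apply, SummableFamily.powerSeriesFamily_hsum_zero,
    PowerSeries.constantCoeff_exp, one_smul]

theorem hder_expSeries {θ : k →+ k} (hθ : IsDer θ) (lam : Λ →+ k) {ε : k⟦Λ⟧} (h : Inf ε) :
    hder θ lam (expSeries ε) = hder θ lam ε * expSeries ε := by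
  have hD := hθ.hder lam
  ext γ
  rw [expSeries, PowerSeries.heval_apply, hder_hsum, ← SummableFamily.hsum_smul,
    SummableFamily.coeff_hsum, finsum_nat_succ]
  · refine finsum_congr fun n => ?_
    rw [SummableFamily.smul_apply, of_symm_smul_of_eq_mul,
      SummableFamily.powerSeriesFamily_of_orderTop_pos h.orderTop_pos,
      SummableFamily.powerSeriesFamily_of_orderTop_pos h.orderTop_pos, PowerSeries.coeff_exp,
      PowerSeries.coeff_exp, ← C_mul_eq_smul, ← C_mul_eq_smul,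
      hD.const_mul (by rw [hder_C, hθ.ratAlg, map_zero]), hD.pow_succ]
    congr 1
    have : (C (algebraMap ℚ k (1 / (n + 1).factorial)) : k⟦Λ⟧) * ((n + 1 : ℕ) : k⟦Λ⟧) =
        C (algebraMap ℚ k (1 / n.factorial)) := by
      rw [← map_natCast (C : k →+* k⟦Λ⟧), ← map_mul, ← map_natCast (algebraMap ℚ k), ← map_mul]
      congr 2
      rw [Nat.factorial_succ]
      push_cast
      field_simp
    rw [← this]; ring
  · rw [SummableFamily.powerSeriesFamily_of_orderTop_pos h.orderTop_pos, pow_zero,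
      PowerSeries.coeff_exp, ← C_mul_eq_smul, mul_one, hder_C, hθ.ratAlg, map_zero, coeff_zero]

end Exp

/-- The ring map `∑ c_γ t^γ ↦ ∑ φ(c_γ) w(γ) t^(τ γ)` for a character `w`. -/
def wmap (φ : R →+* R') (τ : Λ →+ Λ') (hτ : StrictMono τ) (w : Λ → R') (hw0 : w 0 = 1)
    (hw : ∀ a b, w (a + b) = w a * w b) : R⟦Λ⟧ →+* R'⟦Λ'⟧ :=
  (embDomainRingHom τ hτ.injective fun _ _ => hτ.le_iff_le).comp
    { toFun := fun f => ⟨fun γ => φ (f.coeff γ) * w γ,
        f.isPWO_support.mono fun γ h h0 => h (by simp [h0])⟩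
      map_one' := by ext γ; by_cases h : γ = 0 <;> simp [h, hw0]
      map_mul' := fun f g => by
        ext γ
        rw [coeff_mul_left' f.isPWO_support (fun γ h h0 => h (by simp [h0]))]
        have : ∀ F : R'⟦Λ⟧, ∀ G : R'⟦Λ⟧, G.support ⊆ g.support →
            ∑ ij ∈ Finset.antidiagonal f.isPWO_support G.isPWO_support γ,
              F.coeff ij.1 * G.coeff ij.2 =
            ∑ ij ∈ Finset.antidiagonal f.isPWO_support g.isPWO_support γ,
              F.coeff ij.1 * G.coeff ij.2 := by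
          intro F G hG
          refine Finset.sum_subset (Finset.antidiagonal_mono_right hG) fun ij h1 h2 => ?_
          rw [Finset.mem_antidiagonal] at h1 h2
          have : G.coeff ij.2 = 0 := by
            by_contra hne
            exact h2 ⟨h1.1, hne, h1.2.2⟩
          rw [this, mul_zero]
        rw [this _ _ (fun γ h h0 => h (by simp [h0]))]
        simp only [coeff_mul, map_sum, Finset.sum_mul]
        refine Finset.sum_congr rfl fun ij hij => ?_
        rw [← (Finset.mem_antidiagonal.1 hij).2.2, hw, map_mul]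
        ring
      map_zero' := by ext; simp
      map_add' := fun _ _ => by ext; simp [add_mul] }

theorem wmap_coeff (φ : R →+* R') (τ : Λ →+ Λ') (hτ : StrictMono τ) (w : Λ → R') (hw0 : w 0 = 1)
    (hw : ∀ a b, w (a + b) = w a * w b) (f : R⟦Λ⟧) (γ : Λ) :
    (wmap φ τ hτ w hw0 hw f).coeff (τ γ) = φ (f.coeff γ) * w γ :=
  embDomain_mk_coeff hτ.injective fun _ _ => hτ.le_iff_le

theorem wmap_coeff_of_notMem (φ : R →+* R') (τ : Λ →+ Λ') (hτ : StrictMono τ) (w : Λ → R')
    (hw0 : w 0 = 1) (hw : ∀ a b, w (a + b) = w a * w b) (f : R⟦Λ⟧) {γ : Λ'}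
    (h : γ ∉ Set.range τ) : (wmap φ τ hτ w hw0 hw f).coeff γ = 0 :=
  embDomain_of_notMem_range h

omit [IsOrderedAddMonoid Λ] [IsOrderedAddMonoid Λ'] in
/-- Extensionality along an embedding of exponents. -/
theorem ext_range (τ : Λ →+ Λ') {f g : R'⟦Λ'⟧} (h1 : ∀ γ, f.coeff (τ γ) = g.coeff (τ γ))
    (h2 : ∀ γ, γ ∉ Set.range τ → f.coeff γ = g.coeff γ) : f = g := by
  ext γ
  by_cases h : γ ∈ Set.range τ
  · obtain ⟨γ, rfl⟩ := h
    exact h1 γ
  · exact h2 γ h

theorem wmap_single (φ : R →+* R') (τ : Λ →+ Λ') (hτ : StrictMono τ) (w : Λ → R') (hw0 : w 0 = 1)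
    (hw : ∀ a b, w (a + b) = w a * w b) (γ : Λ) (c : R) :
    wmap φ τ hτ w hw0 hw (single γ c) = single (τ γ) (φ c * w γ) := by
  refine ext_range τ (fun β => ?_) fun β hβ => ?_
  · rw [wmap_coeff]
    by_cases h : β = γ
    · subst h; simp
    · rw [coeff_single_of_ne h, coeff_single_of_ne (hτ.injective.ne h), map_zero, zero_mul]
  · rw [wmap_coeff_of_notMem _ _ _ _ _ _ _ hβ, coeff_single_of_ne]
    rintro rfl
    exact hβ ⟨γ, rfl⟩

theorem hmap_eq_wmap (φ : R →+* R') (τ : Λ →+ Λ') (hτ : StrictMono τ) (f : R⟦Λ⟧) :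
    hmap φ τ hτ f = wmap φ τ hτ (fun _ => 1) rfl (fun _ _ => (mul_one _).symm) f :=
  ext_range τ (fun β => by rw [hmap_coeff, wmap_coeff, mul_one]) fun β hβ => by
    rw [hmap_coeff_of_notMem _ _ _ _ hβ, wmap_coeff_of_notMem _ _ _ _ _ _ _ hβ]

theorem hmap_single (φ : R →+* R') (τ : Λ →+ Λ') (hτ : StrictMono τ) (γ : Λ) (c : R) :
    hmap φ τ hτ (single γ c) = single (τ γ) (φ c) := by
  rw [hmap_eq_wmap, wmap_single, mul_one]

theorem hmap_C (φ : R →+* R') (τ : Λ →+ Λ') (hτ : StrictMono τ) (c : R) :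
    hmap φ τ hτ (C c) = C (φ c) := by
  rw [C_apply, C_apply, hmap_single, map_zero]

theorem Lead.wmap (φ : R →+* R') (τ : Λ →+ Λ') (hτ : StrictMono τ) (w : Λ → R') (hw0 : w 0 = 1)
    (hw : ∀ a b, w (a + b) = w a * w b) {f : R⟦Λ⟧} {γ : Λ} {c : R} (h : Lead f γ c) :
    Lead (wmap φ τ hτ w hw0 hw f) (τ γ) (φ c * w γ) := by
  refine ⟨by rw [wmap_coeff, h.1], fun β hβ => ?_⟩
  by_cases hr : β ∈ Set.range τ
  · obtain ⟨β, rfl⟩ := hr
    rw [wmap_coeff, h.2 β (hτ.lt_iff_lt.1 hβ), map_zero, zero_mul]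
  · exact wmap_coeff_of_notMem _ _ _ _ _ _ _ hr

theorem Lead.hmap (φ : R →+* R') (τ : Λ →+ Λ') (hτ : StrictMono τ) {f : R⟦Λ⟧} {γ : Λ} {c : R}
    (h : Lead f γ c) : Lead (hmap φ τ hτ f) (τ γ) (φ c) := by
  have := h.wmap φ τ hτ (fun _ => 1) rfl (fun _ _ => (mul_one _).symm)
  rwa [← hmap_eq_wmap, mul_one] at this

end Hahn

end Pool.Agent.MP_97be6c_lc
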