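import Mathlib
import Pool.Agent.MP_97be6c_lc.HahnLem

set_option autoImplicit false
set_option linter.unusedSectionVars false

open HahnSeries

noncomputable section

namespace Pool.Agent.MP_97be6c_lc

section

variable {Λ : Type} [AddCommGroup Λ] [LinearOrder Λ] [IsOrderedAddMonoid Λ]
  {k : Type} [Field k] [LinearOrder k] [IsStrictOrderedRing k]

/-- The hypotheses on the input data of `hahn`. -/
structure Pre (θ : k →+ k) (lam : Λ →+ k) (ex : k → k⟦Λ⟧) (ρ : ℝ →+* k) : Prop where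
  der : IsDer θ
  Q : ∀ γ, γ ≠ 0 → ∀ f, f ≠ 0 → θ f ≠ lam γ * f
  const : ∀ f, θ f = 0 → ∃ r, f = ρ r
  θρ : ∀ r, θ (ρ r) = 0
  P : ∀ f r, θ f = ρ r → r = 0
  ex_add : ∀ a b, ex (a + b) = ex a * ex b
  ex_lead : ∀ c, ∃ γ e, 0 < e ∧ ex c = single γ e
  ex_der : ∀ c, hder θ lam (ex c) = C (θ c) * ex c

/-- The map `E` of a Hahn level, without the order synonym. -/
def hE (ex : k → k⟦Λ⟧) (f : k⟦Λ⟧) : k⟦Λ⟧ := ex (f.coeff 0) * expSeries (small f)

end

/-- The exponential of a level with values in the next one. -/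
abbrev Stage.ex (S : Stage) : S.K → S.K⟦S.A⟧ := expMon S.pr S.E

theorem Stage.ex_def (S : Stage) (c : S.K) : S.ex c = single (-S.pr c) (S.E c) := rfl

/-- The restriction of an embedding to the purely infinite parts. -/
abbrev Emb.onA {S T : Stage} (e : Emb S T) : S.A →+ T.A := restr e.φ e.maps

/-- The properties of a level. -/
structure Good (S : Stage) (ρ : ℝ →+* S.K) : Prop where
  pr_coe : ∀ a : S.A, S.pr a = a
  pr_lt : ∀ f, S.pr f = 0 → ∀ a : S.A, 0 < a → f < a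
  E_add : ∀ f g, S.E (f + g) = S.E f * S.E g
  E_pos : ∀ f, 0 < S.E f
  E_coe : ∀ a : S.A, S.E a = 1
  der : IsDer S.θ
  θ_E : ∀ f, S.θ (S.E f) = S.θ (f - S.pr f) * S.E f
  Q : ∀ a : S.A, a ≠ 0 → ∀ f, f ≠ 0 → S.θ f ≠ S.θ a * f
  const : ∀ f, S.θ f = 0 → ∃ r, f = ρ r
  θρ : ∀ r, S.θ (ρ r) = 0
  P : ∀ f r, S.θ f = ρ r → r = 0

namespace Pre

variable {Λ : Type} [AddCommGroup Λ] [LinearOrder Λ] [IsOrderedAddMonoid Λ]
  {k : Type} [Field k] [LinearOrder k] [IsStrictOrderedRing k]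
  {θ : k →+ k} {lam : Λ →+ k} {ex : k → k⟦Λ⟧} {ρ : ℝ →+* k}

theorem hconst (h : Pre θ lam ex ρ) {f : k⟦Λ⟧} (hf : hder θ lam f = 0) : ∃ r, f = C (ρ r) := by
  have hc : ∀ γ, θ (f.coeff γ) = lam γ * f.coeff γ := fun γ => by
    have := congrArg (fun g => g.coeff γ) hf
    simpa [sub_eq_zero] using this
  obtain ⟨r, hr⟩ := h.const (f.coeff 0) (by simpa using hc 0)
  refine ⟨r, ?_⟩
  ext γ
  by_cases hγ : γ = 0
  · subst hγ; simpa using hr
  · rw [C_apply, coeff_single_of_ne hγ]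
    by_contra hne
    exact h.Q γ hγ _ hne (hc γ)

theorem unique (h : Pre θ lam ex ρ) {y y' g : k⟦Λ⟧} {γ : Λ} {c : k}
    (hy : hder θ lam y = g * y) (hy' : hder θ lam y' = g * y') (h1 : Lead y γ c)
    (h2 : Lead y' γ c) (hc : c ≠ 0) : y = y' := by
  have h0 : y' ≠ 0 := ne_zero_of_coeff_ne_zero (h2.1.symm ▸ hc)
  obtain ⟨r, hr⟩ := h.hconst ((h.der.hder lam).div_eq_zero hy hy' h0)
  have e : y = C (ρ r) * y' := by rw [← hr]; field_simp
  have h3 : y.coeff γ = ρ r * y'.coeff γ := by rw [e, C_apply, coeff_single_zero_mul]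
  rw [h1.1, h2.1] at h3
  have : ρ r = 1 := by
    have := mul_right_cancel₀ hc ((one_mul c).trans h3)
    exact this.symm
  rw [e, this, map_one, one_mul]

theorem expSeries_add (h : Pre θ lam ex ρ) {ε η : k⟦Λ⟧} (hε : Inf ε) (hη : Inf η) :
    expSeries (ε + η) = expSeries ε * expSeries η := by
  have hs : Inf (ε + η) := fun γ hγ => by rw [coeff_add, hε γ hγ, hη γ hγ, add_zero]
  refine h.unique (g := hder θ lam (ε + η)) (γ := 0) (c := 1) (hder_expSeries h.der lam hs) ?_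
    (lead_expSeries hs) ?_ one_ne_zero
  · rw [h.der.hder lam, hder_expSeries h.der lam hε, hder_expSeries h.der lam hη, map_add]
    ring
  · simpa using (lead_expSeries hε).mul (lead_expSeries hη)

theorem ex_zero (h : Pre θ lam ex ρ) : ex 0 = 1 := by
  obtain ⟨γ, e, he, hx⟩ := h.ex_lead 0
  have h0 : ex 0 ≠ 0 := by rw [hx]; exact single_ne_zero he.ne'
  have := h.ex_add 0 0
  rw [add_zero] at this
  exact (mul_eq_left₀ h0).1 this.symm

theorem sub_trunc (f : k⟦Λ⟧) : f - truncLT 0 f = C (f.coeff 0) + small f := by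
  rw [small]; ring

theorem raw_pr_coe {a : k⟦Λ⟧} (ha : ∀ γ, 0 ≤ γ → a.coeff γ = 0) : truncLT 0 a = a := by
  ext γ
  rw [HahnSeries.coeff_truncLT]
  split_ifs with hγ
  · rfl
  · exact (ha γ (not_lt.1 hγ)).symm

theorem raw_pr_eq_zero {f : k⟦Λ⟧} : truncLT 0 f = 0 ↔ ∀ β, β < 0 → f.coeff β = 0 := by
  constructor
  · intro h β hβ
    rw [← coeff_truncLT_of_lt hβ f, h, coeff_zero]
  · intro h
    ext β
    rw [HahnSeries.coeff_truncLT]
    split_ifs with hβ
    · exact h β hβ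
    · rfl

theorem raw_pr_lt {f a : k⟦Λ⟧} (hf : truncLT 0 f = 0) (ha : ∀ γ, 0 ≤ γ → a.coeff γ = 0)
    (hpos : 0 < toLex a) : toLex f < toLex a := by
  obtain ⟨γ, c, hc, hl⟩ := lead_of_pos hpos
  have hγ : γ < 0 := by
    by_contra hle
    exact hc.ne' (hl.1.symm.trans (ha γ (not_lt.1 hle)))
  have hz := raw_pr_eq_zero.1 hf
  refine (HahnSeries.lt_iff _ _).2 ⟨γ, fun j hj => ?_, ?_⟩
  · simp only [ofLex_toLex]
    rw [hz j (hj.trans hγ), hl.2 j hj]
  · simp only [ofLex_toLex]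
    rw [hz γ hγ, hl.1]; exact hc

theorem raw_E_add (h : Pre θ lam ex ρ) (f g : k⟦Λ⟧) : hE ex (f + g) = hE ex f * hE ex g := by
  rw [hE, hE, hE, coeff_add, h.ex_add, small_add, h.expSeries_add (inf_small _) (inf_small _)]
  ring

theorem raw_E_lead {f : k⟦Λ⟧} {γ : Λ} {e : k} (hx : ex (f.coeff 0) = single γ e) :
    Lead (hE ex f) γ e := by
  have := (Lead.single γ e).mul (lead_expSeries (inf_small f))
  rwa [← hx, mul_one, add_zero] at this

theorem raw_E_pos (h : Pre θ lam ex ρ) (f : k⟦Λ⟧) : 0 < toLex (hE ex f) := by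
  obtain ⟨γ, e, he, hx⟩ := h.ex_lead (f.coeff 0)
  exact (raw_E_lead hx).pos he

theorem raw_E_coe (h : Pre θ lam ex ρ) {a : k⟦Λ⟧} (ha : ∀ γ, 0 ≤ γ → a.coeff γ = 0) :
    hE ex a = 1 := by
  have h1 : small a = 0 := by
    ext γ
    rw [small_coeff]
    split_ifs with hγ
    · exact ha γ hγ.le
    · rfl
  rw [hE, ha 0 le_rfl, h1, h.ex_zero, expSeries_zero, one_mul]

theorem raw_E_C (c : k) : hE ex (C c) = ex c := by
  have h1 : small (C c : k⟦Λ⟧) = 0 := by
    ext γ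
    rw [small_coeff]
    split_ifs with hγ
    · exact coeff_single_of_ne hγ.ne'
    · rfl
  rw [hE, h1, expSeries_zero, mul_one, C_apply, coeff_single_same]

theorem raw_θ_E (h : Pre θ lam ex ρ) (f : k⟦Λ⟧) :
    hder θ lam (hE ex f) = hder θ lam (f - truncLT 0 f) * hE ex f := by
  rw [hE, h.der.hder lam, hder_expSeries h.der lam (inf_small _), h.ex_der, sub_trunc, map_add,
    hder_C]
  ring

theorem raw_Q (h : Pre θ lam ex ρ) {a f : k⟦Λ⟧} (ha : ∀ γ, 0 ≤ γ → a.coeff γ = 0) (ha' : a ≠ 0)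
    (hf : f ≠ 0) : hder θ lam f ≠ hder θ lam a * f := by
  intro heq
  obtain ⟨α, c, hc, hl⟩ := exists_lead ha'
  obtain ⟨β, d, hd, hl'⟩ := exists_lead hf
  have hα : α < 0 := by
    by_contra hle
    exact hc (hl.1.symm.trans (ha α (not_lt.1 hle)))
  have h1 : Lead (hder θ lam a) α (θ c - lam α * c) :=
    ⟨by rw [hder_coeff, hl.1], fun j hj => by rw [hder_coeff, hl.2 j hj]; simp⟩
  have h2 := (h1.mul hl').1
  rw [← heq, hder_coeff, hl'.2 _ (by simpa using hα)] at h2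
  have h4 : θ c - lam α * c ≠ 0 := sub_ne_zero.2 (h.Q α hα.ne c hc)
  exact mul_ne_zero h4 hd (by simpa using h2.symm)

theorem raw_P (h : Pre θ lam ex ρ) {f : k⟦Λ⟧} {r : ℝ} (hf : hder θ lam f = C (ρ r)) : r = 0 := by
  have := congrArg (fun g : k⟦Λ⟧ => g.coeff 0) hf
  exact h.P (f.coeff 0) r (by simpa using this)

theorem raw_θρ (h : Pre θ lam ex ρ) (r : ℝ) : hder θ lam (C (ρ r) : k⟦Λ⟧) = 0 := by
  rw [hder_C, h.θρ, map_zero]

theorem good (h : Pre θ lam ex ρ) : Good (hahn Λ k θ lam ex) ((incl Λ k).comp ρ) where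
  pr_coe a := Subtype.ext (raw_pr_coe a.2)
  pr_lt _ hf a ha := raw_pr_lt (congrArg Subtype.val hf) a.2 ha
  E_add f g := h.raw_E_add f g
  E_pos f := h.raw_E_pos f
  E_coe a := h.raw_E_coe a.2
  der := h.der.hder lam
  θ_E f := h.raw_θ_E f
  Q a ha _ hf := h.raw_Q a.2 (fun h0 => ha (Subtype.ext h0)) hf
  const _ hf := h.hconst hf
  θρ r := h.raw_θρ r
  P _ _ hf := h.raw_P hf

end Pre

theorem Good.pre {S : Stage} {ρ : ℝ →+* S.K} (h : Good S ρ) :
    Pre S.θ (S.θ.comp S.A.subtype) S.ex ρ where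
  der := h.der
  Q := h.Q
  const := h.const
  θρ := h.θρ
  P := h.P
  ex_add a b := by
    simp only [Stage.ex_def, single_mul_single, map_add, neg_add, h.E_add]
  ex_lead c := ⟨_, _, h.E_pos c, rfl⟩
  ex_der c := by
    rw [Stage.ex_def, hder_single, C_apply, single_mul_single, zero_add, h.θ_E]
    congr 1
    simp only [AddMonoidHom.comp_apply, AddSubgroup.subtype_apply, map_neg,
      map_sub]
    ring

theorem pre_base : Pre (0 : ℝ →+ ℝ) (AddMonoidHom.id ℝ) (fun c => (C (Real.exp c) : ℝ⟦ℝ⟧))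
    (RingHom.id ℝ) where
  der a b := by simp
  Q γ hγ f hf := by simpa using ⟨hγ, hf⟩
  const f _ := ⟨f, rfl⟩
  θρ _ := rfl
  P f r h := h.symm
  ex_add a b := by rw [Real.exp_add, map_mul]
  ex_lead c := ⟨0, Real.exp c, Real.exp_pos c, rfl⟩
  ex_der c := by rw [hder_C]; simp

/-- The real constants at level `m`. -/
def rho : (m : ℕ) → ℝ →+* (stage m).K
  | 0 => (incl ℝ ℝ).comp (RingHom.id ℝ)
  | m + 1 => (incl (stage m).A (stage m).K).comp (rho m)

theorem good : (m : ℕ) → Good (stage m) (rho m)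
  | 0 => pre_base.good
  | m + 1 => (good m).pre.good

namespace Good

variable {S : Stage} {ρ : ℝ →+* S.K}

theorem pr_sub (h : Good S ρ) (f : S.K) : S.pr (f - S.pr f) = 0 := by
  rw [map_sub, h.pr_coe, sub_self]

theorem E_zero (h : Good S ρ) : S.E 0 = 1 := h.E_coe 0

theorem E_sub (h : Good S ρ) (f : S.K) : S.E (f - S.pr f) = S.E f := by
  have := h.E_add (f - S.pr f) (S.pr f)
  rw [sub_add_cancel, h.E_coe, mul_one] at this
  exact this.symm

theorem pr_pos (h : Good S ρ) {f : S.K} (hf : 0 < f) (h0 : S.pr f ≠ 0) : 0 < S.pr f := by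
  rcases lt_or_gt_of_ne h0 with hlt | hlt
  · have := h.pr_lt _ (h.pr_sub f) (-S.pr f) (neg_pos.2 hlt)
    rw [AddSubgroup.coe_neg] at this
    linarith
  · exact hlt

end Good

end Pool.Agent.MP_97be6c_lc
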