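import Mathlib
import Pool.Agent.MP_97be6c_lc.Good

set_option autoImplicit false
set_option linter.unusedSectionVars false

open HahnSeries

noncomputable section

namespace Pool.Agent.MP_97be6c_lc

/-- Morphisms of levels that need not respect the purely infinite parts. -/
structure Mor (S T : Stage) where
  φ : S.K →+* T.K
  c : T.K
  mono : StrictMono φ
  hB : ∀ f, T.pr (φ f) = 0 ↔ S.pr f = 0
  hE : ∀ f, S.pr f = 0 → T.E (φ f) = φ (S.E f)
  hθ : ∀ f, T.θ (φ f) = c * φ (S.θ f)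

section Raw

variable {Λ Λ' : Type} [AddCommGroup Λ] [LinearOrder Λ] [IsOrderedAddMonoid Λ]
  [AddCommGroup Λ'] [LinearOrder Λ'] [IsOrderedAddMonoid Λ']
  {k k' : Type} [Field k] [LinearOrder k] [IsStrictOrderedRing k]
  [Field k'] [LinearOrder k'] [IsStrictOrderedRing k']
  {θ : k →+ k} {lam : Λ →+ k} {ex : k → k⟦Λ⟧} {ρ : ℝ →+* k}
  {θ' : k' →+ k'} {lam' : Λ' →+ k'} {ex' : k' → k'⟦Λ'⟧} {ρ' : ℝ →+* k'}

/-- A ring map of Hahn fields with controlled leading terms. -/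
structure LT (Φ : k⟦Λ⟧ →+* k'⟦Λ'⟧) (φ : k →+* k') (τ : Λ →+ Λ') (w : Λ → k') : Prop where
  hφ : StrictMono φ
  hτ : StrictMono τ
  hw : ∀ γ, 0 < w γ
  hw0 : w 0 = 1
  lead : ∀ f γ c, Lead f γ c → Lead (Φ f) (τ γ) (φ c * w γ)

variable {Φ : k⟦Λ⟧ →+* k'⟦Λ'⟧} {φ : k →+* k'} {τ : Λ →+ Λ'} {w : Λ → k'}

theorem LT.mono (h : LT Φ φ τ w) {f g : k⟦Λ⟧} (hfg : toLex f < toLex g) :
    toLex (Φ f) < toLex (Φ g) := by
  have h1 : 0 < toLex (g - f) := sub_pos.2 hfg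
  obtain ⟨γ, c, hc, hl⟩ := lead_of_pos h1
  have h2 := (h.lead _ _ _ hl).pos (mul_pos (by simpa using h.hφ hc) (h.hw γ))
  rw [map_sub] at h2
  exact sub_pos.1 h2

theorem LT.hB (h : LT Φ φ τ w) (f : k⟦Λ⟧) : truncLT 0 (Φ f) = 0 ↔ truncLT 0 f = 0 := by
  rw [Pre.raw_pr_eq_zero, Pre.raw_pr_eq_zero]
  constructor
  · intro H β hβ
    by_contra hne
    obtain ⟨γ, c, hc, hl⟩ := exists_lead (ne_zero_of_coeff_ne_zero hne)
    have hγ : γ < 0 := lt_of_le_of_lt (not_lt.1 fun hlt => hne (hl.2 β hlt)) hβ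
    have h1 := (h.lead _ _ _ hl).1
    rw [H _ (by simpa using h.hτ hγ)] at h1
    exact mul_ne_zero ((map_ne_zero φ).2 hc) (h.hw γ).ne' h1.symm
  · intro H β hβ
    have h1 := h.lead f 0 _ ⟨rfl, H⟩
    rw [map_zero] at h1
    exact h1.2 β hβ

theorem LT.hE (h : LT Φ φ τ w) (hp : Pre θ lam ex ρ) (hp' : Pre θ' lam' ex' ρ') {c' : k'⟦Λ'⟧}
    (hθ : ∀ f, hder θ' lam' (Φ f) = c' * Φ (hder θ lam f))
    (hex : ∀ c, ∃ γ e, 0 < e ∧ ex c = single γ e ∧ ex' (φ c) = single (τ γ) (φ e * w γ))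
    {f : k⟦Λ⟧} (hf : truncLT 0 f = 0) : hE ex' (Φ f) = Φ (hE ex f) := by
  have h0 : (Φ f).coeff 0 = φ (f.coeff 0) := by
    have h1 := h.lead f 0 _ ⟨rfl, Pre.raw_pr_eq_zero.1 hf⟩
    rw [map_zero, h.hw0, mul_one] at h1
    exact h1.1
  obtain ⟨γ, e, he, h1, h2⟩ := hex (f.coeff 0)
  refine hp'.unique (g := hder θ' lam' (Φ f)) (γ := τ γ) (c := φ e * w γ) ?_ ?_
    (Pre.raw_E_lead (h0.symm ▸ h2)) (h.lead _ _ _ (Pre.raw_E_lead h1))
    (mul_ne_zero ((map_ne_zero φ).2 he.ne') (h.hw γ).ne')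
  · rw [hp'.raw_θ_E, (h.hB f).2 hf, sub_zero]
  · rw [hθ, hp.raw_θ_E, hf, sub_zero, map_mul, hθ, mul_assoc]

/-- A morphism of Hahn levels from a ring map with controlled leading terms. -/
def LT.mor (h : LT Φ φ τ w) (hp : Pre θ lam ex ρ) (hp' : Pre θ' lam' ex' ρ') (c' : k'⟦Λ'⟧)
    (hθ : ∀ f, hder θ' lam' (Φ f) = c' * Φ (hder θ lam f))
    (hex : ∀ c, ∃ γ e, 0 < e ∧ ex c = single γ e ∧ ex' (φ c) = single (τ γ) (φ e * w γ)) :
    Mor (hahn Λ k θ lam ex) (hahn Λ' k' θ' lam' ex') where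
  φ := Φ
  c := toLex c'
  mono _ _ hfg := h.mono hfg
  hB f := ⟨fun H => Subtype.ext ((h.hB f).1 (congrArg Subtype.val H)),
    fun H => Subtype.ext ((h.hB f).2 (congrArg Subtype.val H))⟩
  hE _ hf := h.hE hp hp' hθ hex (congrArg Subtype.val hf)
  hθ f := hθ f

theorem wmap_hθ (hτ : StrictMono τ) (hw0 : w 0 = 1) (hw : ∀ a b, w (a + b) = w a * w b)
    (hd : IsDer θ') {c : k'} (h1 : ∀ f, θ' (φ f) = c * φ (θ f))
    (h2 : ∀ γ, θ' (w γ) - lam' (τ γ) * w γ = -(c * φ (lam γ)) * w γ) (f : k⟦Λ⟧) :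
    hder θ' lam' (wmap φ τ hτ w hw0 hw f) = C c * wmap φ τ hτ w hw0 hw (hder θ lam f) := by
  refine ext_range τ (fun γ => ?_) fun γ hγ => ?_
  · rw [hder_coeff, C_apply, coeff_single_zero_mul, wmap_coeff, wmap_coeff, hder_coeff, hd, h1,
      map_sub, map_mul]
    linear_combination φ (f.coeff γ) * h2 γ
  · rw [hder_coeff, C_apply, coeff_single_zero_mul, wmap_coeff_of_notMem _ _ _ _ _ _ _ hγ,
      wmap_coeff_of_notMem _ _ _ _ _ _ _ hγ]
    simp

end Raw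

namespace Mor

variable {S T U : Stage} {ρ : ℝ →+* S.K} {ρ' : ℝ →+* T.K} {ρ'' : ℝ →+* U.K}

/-- The induced map on exponents. -/
def τ (s : Mor S T) : S.A →+ T.A := T.pr.comp (s.φ.toAddMonoidHom.comp S.A.subtype)

theorem τ_apply (s : Mor S T) (a : S.A) : s.τ a = T.pr (s.φ a) := rfl

/-- The induced character. -/
def w (s : Mor S T) (a : S.A) : T.K := T.E (-s.φ a)

theorem τ_mono (s : Mor S T) (hS : Good S ρ) (hT : Good T ρ') : StrictMono s.τ := by
  intro a b hab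
  rw [← sub_pos, ← map_sub, τ_apply]
  have h0 : (0 : S.K) < ((b - a : S.A) : S.K) := sub_pos.2 hab
  refine hT.pr_pos (by simpa using s.mono h0) fun h => ?_
  rw [s.hB, hS.pr_coe] at h
  exact (sub_pos.2 hab).ne' h

theorem w_zero (s : Mor S T) (hT : Good T ρ') : s.w 0 = 1 := by
  simp [w, hT.E_zero]

theorem w_add (s : Mor S T) (hT : Good T ρ') (a b : S.A) : s.w (a + b) = s.w a * s.w b := by
  simp only [w, AddSubgroup.coe_add, map_add, neg_add, hT.E_add]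

theorem pr_pr (s : Mor S T) (hS : Good S ρ) (c : S.K) : T.pr (s.φ (S.pr c)) = T.pr (s.φ c) := by
  have := (s.hB _).2 (hS.pr_sub c)
  rw [map_sub, map_sub, sub_eq_zero] at this
  exact this.symm

theorem map_E (s : Mor S T) (hS : Good S ρ) (c : S.K) :
    s.φ (S.E c) = T.E (s.φ c - s.φ (S.pr c)) := by
  rw [← hS.E_sub, ← s.hE _ (hS.pr_sub c), map_sub]

/-- The underlying ring map of the induced morphism. -/
def nextφ (s : Mor S T) (hS : Good S ρ) (hT : Good T ρ') : S.K⟦S.A⟧ →+* T.K⟦T.A⟧ :=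
  wmap s.φ s.τ (s.τ_mono hS hT) s.w (s.w_zero hT) (s.w_add hT)

theorem next_ex (s : Mor S T) (hS : Good S ρ) (hT : Good T ρ') (c : S.K) :
    T.ex (s.φ c) = single (s.τ (-S.pr c)) (s.φ (S.E c) * s.w (-S.pr c)) := by
  rw [Stage.ex_def, map_neg, τ_apply, s.pr_pr hS, s.map_E hS, w, ← hT.E_add]
  simp

theorem nextφ_ex (s : Mor S T) (hS : Good S ρ) (hT : Good T ρ') (c : S.K) :
    s.nextφ hS hT (S.ex c) = T.ex (s.φ c) := by
  rw [s.next_ex hS hT, Stage.ex_def, nextφ, wmap_single]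

theorem nextφ_C (s : Mor S T) (hS : Good S ρ) (hT : Good T ρ') (c : S.K) :
    s.nextφ hS hT (C c) = C (s.φ c) := by
  rw [nextφ, C_apply, C_apply, wmap_single, map_zero, s.w_zero hT, mul_one]

theorem next_LT (s : Mor S T) (hS : Good S ρ) (hT : Good T ρ') :
    LT (s.nextφ hS hT) s.φ s.τ s.w :=
  ⟨s.mono, s.τ_mono hS hT, fun _ => hT.E_pos _, s.w_zero hT, fun _ _ _ h => h.wmap _ _ _ _ _ _⟩

theorem next_hθ (s : Mor S T) (hS : Good S ρ) (hT : Good T ρ') (f : S.K⟦S.A⟧) :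
    hder T.θ (T.θ.comp T.A.subtype) (s.nextφ hS hT f) =
      C s.c * s.nextφ hS hT (hder S.θ (S.θ.comp S.A.subtype) f) := by
  refine wmap_hθ _ _ _ hT.der s.hθ (fun γ => ?_) f
  simp only [w, hT.θ_E, τ_apply, AddMonoidHom.comp_apply, AddSubgroup.subtype_apply, map_neg,
    map_sub, AddSubgroup.coe_neg, s.hθ]
  ring

/-- The induced morphism of the next levels. -/
def next (s : Mor S T) (hS : Good S ρ) (hT : Good T ρ') : Mor S.next T.next :=
  (s.next_LT hS hT).mor hS.pre hT.pre (C s.c) (s.next_hθ hS hT)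
    fun c => ⟨_, _, hS.E_pos c, rfl, s.next_ex hS hT c⟩

theorem next_φ (s : Mor S T) (hS : Good S ρ) (hT : Good T ρ') (f : S.K⟦S.A⟧) :
    (s.next hS hT).φ f = s.nextφ hS hT f := rfl

/-- Composition. -/
def comp (t : Mor T U) (s : Mor S T) : Mor S U where
  φ := t.φ.comp s.φ
  c := t.c * t.φ s.c
  mono := t.mono.comp s.mono
  hB f := (t.hB _).trans (s.hB f)
  hE f hf := by
    rw [RingHom.comp_apply, t.hE _ ((s.hB f).2 hf), s.hE f hf, RingHom.comp_apply]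
  hθ f := by
    rw [RingHom.comp_apply, t.hθ, s.hθ, map_mul, RingHom.comp_apply, mul_assoc]

theorem nextφ_comp (t : Mor T U) (s : Mor S T) (hS : Good S ρ) (hT : Good T ρ')
    (hU : Good U ρ'') (f : S.K⟦S.A⟧) :
    (t.comp s).nextφ hS hU f = t.nextφ hT hU (s.nextφ hS hT f) := by
  have hτ : ∀ a, (t.comp s).τ a = t.τ (s.τ a) := fun a => (t.pr_pr hT _).symm
  refine ext_range (t.comp s).τ (fun γ => ?_) fun γ hγ => ?_
  · rw [nextφ, wmap_coeff, hτ, nextφ, wmap_coeff, nextφ, wmap_coeff, map_mul, mul_assoc]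
    congr 1
    rw [w, w, w, t.map_E hT, ← hU.E_add, τ_apply]
    congr 1
    simp [comp]
  · rw [nextφ, wmap_coeff_of_notMem _ _ _ _ _ _ _ hγ]
    by_cases h1 : γ ∈ Set.range t.τ
    · obtain ⟨β, rfl⟩ := h1
      rw [nextφ, wmap_coeff, nextφ, wmap_coeff_of_notMem, map_zero, zero_mul]
      rintro ⟨a, rfl⟩
      exact hγ ⟨a, hτ a⟩
    · rw [nextφ, wmap_coeff_of_notMem _ _ _ _ _ _ _ h1]

theorem nextφ_congr (s s' : Mor S T) (hS : Good S ρ) (hT : Good T ρ') (f : S.K⟦S.A⟧)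
    (h : ∀ a ∈ f.support, s.φ (f.coeff a) = s'.φ (f.coeff a) ∧ s.φ a = s'.φ a) :
    s.nextφ hS hT f = s'.nextφ hS hT f := by
  have key : ∀ (s s' : Mor S T),
      (∀ a ∈ f.support, s.φ (f.coeff a) = s'.φ (f.coeff a) ∧ s.φ a = s'.φ a) →
      ∀ γ, (s.nextφ hS hT f).coeff γ ≠ 0 →
        (s.nextφ hS hT f).coeff γ = (s'.nextφ hS hT f).coeff γ := by
    intro s s' h γ hγ
    by_cases h1 : γ ∈ Set.range s.τ
    · obtain ⟨a, rfl⟩ := h1
      rw [nextφ, wmap_coeff] at hγ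
      have ha : a ∈ f.support := fun h0 => hγ (by rw [h0, map_zero, zero_mul])
      have e : s.τ a = s'.τ a := by rw [τ_apply, τ_apply, (h a ha).2]
      rw [nextφ, wmap_coeff, e, nextφ, wmap_coeff, (h a ha).1, w, w, (h a ha).2]
    · exact absurd (wmap_coeff_of_notMem _ _ _ _ _ _ _ h1) hγ
  ext γ
  by_cases h1 : (s.nextφ hS hT f).coeff γ = 0
  · by_cases h2 : (s'.nextφ hS hT f).coeff γ = 0
    · rw [h1, h2]
    · exact (key s' s (fun a ha => ⟨(h a ha).1.symm, (h a ha).2.symm⟩) γ h2).symm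
  · exact key s s' h γ h1

theorem nextφ_eq_hmap (s : Mor S T) (e : Emb S T) (h : ∀ c, s.φ c = e.φ c) (hS : Good S ρ)
    (hT : Good T ρ') (f : S.K⟦S.A⟧) :
    s.nextφ hS hT f = hmap e.φ e.onA (fun _ _ h => e.mono h) f := by
  have hτ : ∀ a, s.τ a = e.onA a := fun a => by
    rw [τ_apply, h]; exact hT.pr_coe (e.onA a)
  refine ext_range s.τ (fun γ => ?_) fun γ hγ => ?_
  · rw [nextφ, wmap_coeff, hτ, hmap_coeff, h, w, h]
    have : T.E (-e.φ γ) = 1 := hT.E_coe (-e.onA γ)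
    rw [this, mul_one]
  · rw [nextφ, wmap_coeff_of_notMem _ _ _ _ _ _ _ hγ, hmap_coeff_of_notMem]
    rintro ⟨a, rfl⟩
    exact hγ ⟨a, hτ a⟩

end Mor

/-- The variable `x` at level `m`. -/
def xs : (m : ℕ) → (stage m).K
  | 0 => xBase
  | m + 1 => incl (stage m).A (stage m).K (xs m)

theorem good_base : Good base ((incl ℝ ℝ).comp (RingHom.id ℝ)) := pre_base.good

theorem base_θ_timesX (r : ℝ) : base.θ (timesX r) = xBase * incl ℝ ℝ r := by
  have : hder (0 : ℝ →+ ℝ) (AddMonoidHom.id ℝ) (single (-1 : ℝ) r) =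
      (single (-1 : ℝ) (1 : ℝ) : ℝ⟦ℝ⟧) * single 0 r := by
    rw [hder_single, single_mul_single]
    simp
  exact this

theorem upZero_LT : LT (k := ℝ) (k' := base.K) (Λ := ℝ) (Λ' := base.A)
    (wmap (incl ℝ ℝ) timesX timesX_strictMono (fun _ => 1) rfl fun _ _ => (mul_one _).symm)
    (incl ℝ ℝ) timesX (fun _ => 1) :=
  ⟨incl_strictMono, timesX_strictMono, fun _ => one_pos, rfl, fun _ _ _ h => h.wmap _ _ _ _ _ _⟩

theorem base_ex_incl (c : ℝ) : base.ex (incl ℝ ℝ c) = single 0 (incl ℝ ℝ (Real.exp c)) := by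
  have h1 : base.pr (incl ℝ ℝ c) = 0 :=
    Subtype.ext (Pre.raw_pr_eq_zero.2 fun β hβ => coeff_single_of_ne hβ.ne)
  have h2 : base.E (incl ℝ ℝ c) = incl ℝ ℝ (Real.exp c) :=
    Pre.raw_E_C (ex := fun c => (C (Real.exp c) : ℝ⟦ℝ⟧)) c
  rw [Stage.ex_def, h1, h2, neg_zero]

/-- The upward shift on level zero as a morphism. -/
def upMorZero : Mor base base.next :=
  upZero_LT.mor pre_base good_base.pre (C xBase)
    (wmap_hθ (θ' := base.θ) (lam' := base.θ.comp base.A.subtype) _ _ _ good_base.der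
      (fun f => (good_base.θρ f).trans (by simp))
      fun γ => by
        rw [good_base.der.one, AddMonoidHom.comp_apply, AddSubgroup.subtype_apply, base_θ_timesX]
        simp)
    fun c => ⟨0, Real.exp c, Real.exp_pos c, rfl,
      (base_ex_incl c).trans (by rw [map_zero, mul_one])⟩

/-- The upward shift as a morphism. -/
def upMor : (m : ℕ) → Mor (stage m) (stage (m + 1))
  | 0 => upMorZero
  | m + 1 => (upMor m).next (good m) (good (m + 1))

theorem upMor_φ : ∀ (m : ℕ) (f : (stage m).K), (upMor m).φ f = (up m).φ f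
  | 0, f => (hmap_eq_wmap (incl ℝ ℝ) timesX timesX_strictMono f).symm
  | m + 1, f => (upMor m).nextφ_eq_hmap (up m) (upMor_φ m) (good m) (good (m + 1)) f

theorem upMor_c : ∀ m : ℕ, (upMor m).c = xs (m + 1)
  | 0 => rfl
  | m + 1 => congrArg (incl (stage (m + 1)).A (stage (m + 1)).K) (upMor_c m)

/-- The inclusion of level `m` in level `m + 1`. -/
abbrev inc (m : ℕ) : (stage m).K →+* (stage (m + 1)).K := incl (stage m).A (stage m).K

theorem up_inc (m : ℕ) (c : (stage m).K) : (up (m + 1)).φ (inc m c) = inc (m + 1) ((up m).φ c) :=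
  hmap_C (up m).φ (up m).onA (fun _ _ h => (up m).mono h) c

theorem θ_inc (m : ℕ) (c : (stage m).K) : (stage (m + 1)).θ (inc m c) = inc m ((stage m).θ c) :=
  hder_C (stage m).θ ((stage m).θ.comp (stage m).A.subtype) c

theorem θ_up (m : ℕ) (c : (stage m).K) :
    (stage (m + 1)).θ ((up m).φ c) = xs (m + 1) * (up m).φ ((stage m).θ c) := by
  rw [← upMor_φ, ← upMor_φ, (upMor m).hθ, upMor_c]

theorem ex_inc (m : ℕ) (c : (stage m).K) :
    (stage (m + 1)).ex (inc m c) = C (toLex ((stage m).ex c)) := by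
  have h1 : (stage (m + 1)).pr (inc m c) = 0 :=
    Subtype.ext (Pre.raw_pr_eq_zero.2 fun β hβ => coeff_single_of_ne hβ.ne)
  have h2 : (stage (m + 1)).E (inc m c) = toLex ((stage m).ex c) :=
    Pre.raw_E_C (ex := (stage m).ex) c
  rw [Stage.ex_def, h1, h2, neg_zero]
  rfl

theorem up_ex (m : ℕ) (c : (stage m).K) :
    (up (m + 1)).φ (toLex ((stage m).ex c)) = toLex ((stage (m + 1)).ex ((up m).φ c)) := by
  rw [← upMor_φ, ← upMor_φ]
  exact (upMor m).nextφ_ex (good m) (good (m + 1)) c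

end Pool.Agent.MP_97be6c_lc
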