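import Mathlib
import Pool.Agent.MP_97be6c_lc.Mor

/-!
# Logarithmic-exponential transseries, part 2: the field `T` with its derivation and exponential
-/

set_option autoImplicit false

open HahnSeries

noncomputable section

namespace Pool.Agent.MP_97be6c_lc

/-- The inclusion of a coefficient field in its Hahn field, as an ordered ring map. -/
def inclNext {K : Type} [Field K] [LinearOrder K] (A : AddSubgroup K) [IsStrictOrderedRing K] :
    OHom K (Lex K⟦A⟧) := ⟨incl A K, incl_strictMono.monotone⟩

/-- The chain of levels, each included in the next one as the constant series. -/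
def expChain : Chain where
  X m := (stage m).K
  f m := inclNext (stage m).A

/-- The ordered field of exponential transseries, the union of the levels. -/
abbrev TE : Type := expChain.Lim

/-- The operator `x * d/dx` on level `m`. -/
def thetaAt (m : ℕ) (f : expChain.X m) : TE := expChain.of m ((stage m).θ f)

theorem thetaAt_succ (m : ℕ) (f : expChain.X m) :
    thetaAt (m + 1) (expChain.step m f) = thetaAt m f :=
  (congrArg (expChain.of (m + 1)) (θ_inc m f)).trans (expChain.of_succ m _)

/-- The operator `x * d/dx` on exponential transseries. -/
def thetaE : TE → TE := expChain.lift thetaAt thetaAt_succ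

/-- The exponential function on level `m`, with values in level `m + 1`. -/
def expAt (m : ℕ) (f : expChain.X m) : TE :=
  expChain.of (m + 1) (expLex (stage m).pr (stage m).E f)

theorem expAt_succ (m : ℕ) (f : expChain.X m) : expAt (m + 1) (expChain.step m f) = expAt m f :=
  (congrArg (expChain.of (m + 2)) (ex_inc m f)).trans (expChain.of_succ (m + 1) _)

/-- The exponential function on exponential transseries. -/
def expE : TE → TE := expChain.lift expAt expAt_succ

/-- The upward shift on level `m`. -/
def upAt (m : ℕ) (f : expChain.X m) : TE := expChain.of (m + 1) ((up m).φ f)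

theorem upAt_succ (m : ℕ) (f : expChain.X m) : upAt (m + 1) (expChain.step m f) = upAt m f :=
  (congrArg (expChain.of (m + 2)) (up_inc m f)).trans (expChain.of_succ (m + 1) _)

/-- The upward shift `f(x) ↦ f(exp x)` on exponential transseries. -/
def upFun : TE → TE := expChain.lift upAt upAt_succ

theorem upFun_one : upFun 1 = 1 := by
  rw [← map_one (expChain.ofHom 0)]
  exact map_one ((expChain.ofHom 1).comp (up 0).φ) |>.trans (map_one _).symm

theorem upFun_zero : upFun 0 = 0 := by
  rw [← map_zero (expChain.ofHom 0)]
  exact map_zero ((expChain.ofHom 1).comp (up 0).φ) |>.trans (map_zero _).symm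

theorem upFun_mul (a b : TE) : upFun (a * b) = upFun a * upFun b := by
  obtain ⟨m, f, g, rfl, rfl⟩ := expChain.exists_of₂ a b
  exact (congrArg upFun (map_mul (expChain.ofHom m) f g).symm).trans
    (map_mul ((expChain.ofHom (m + 1)).comp (up m).φ) f g)

theorem upFun_add (a b : TE) : upFun (a + b) = upFun a + upFun b := by
  obtain ⟨m, f, g, rfl, rfl⟩ := expChain.exists_of₂ a b
  exact (congrArg upFun (map_add (expChain.ofHom m) f g).symm).trans
    (map_add ((expChain.ofHom (m + 1)).comp (up m).φ) f g)

theorem upFun_mono : Monotone upFun := by
  refine StrictMono.monotone fun a b h => ?_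
  obtain ⟨m, f, g, rfl, rfl⟩ := expChain.exists_of₂ a b
  exact expChain.lt_of.2 ((up m).mono (expChain.lt_of.1 h))

/-- The upward shift as an ordered ring map. -/
def upE : OHom TE TE where
  toFun := upFun
  map_one' := upFun_one
  map_mul' := upFun_mul
  map_zero' := upFun_zero
  map_add' := upFun_add
  monotone' := upFun_mono

/-- The exponential transseries `x`. -/
def xE : TE := expChain.of 0 xBase

theorem xE_eq : ∀ m : ℕ, expChain.of m (xs m) = xE
  | 0 => rfl
  | m + 1 => (expChain.of_succ m _).trans (xE_eq m)

theorem xE_ne_zero : xE ≠ 0 :=
  (map_ne_zero (expChain.ofHom 0)).2 (single_ne_zero one_ne_zero)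

theorem thetaE_upFun (f : TE) : thetaE (upFun f) = xE * upFun (thetaE f) := by
  obtain ⟨m, f, -, rfl, -⟩ := expChain.exists_of₂ f f
  rw [← xE_eq (m + 1)]
  exact (congrArg (expChain.of (m + 1)) (θ_up m f)).trans (map_mul (expChain.ofHom _) _ _)

theorem expE_upFun (f : TE) : expE (upFun f) = upFun (expE f) := by
  obtain ⟨m, f, -, rfl, -⟩ := expChain.exists_of₂ f f
  exact congrArg (expChain.of (m + 2)) (up_ex m f).symm

/-- The chain whose `n`-th member is the field of the `f(log_n x)`, `f` an exponential
transseries; it is included in the next member through `f(log_n x) = (f ∘ exp)(log_(n+1) x)`. -/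
def logChain : Chain where
  X _ := TE
  f _ := upE

/-- The ordered field of logarithmic-exponential transseries. -/
abbrev T : Type := logChain.Lim

/-- `mu n = x * exp x * ⋯ * exp_n x`; evaluated at `log_n x` it is `log_n x * ⋯ * log x * x`. -/
def mu (n : ℕ) : TE := Nat.rec xE (fun _ u => xE * upFun u) n

/-- The derivative of `f(log_n x)` is `(x * f')(log_n x) / (log_n x * ⋯ * log x * x)`. -/
def derAt (n : ℕ) (f : TE) : T := logChain.of n (thetaE f / mu n)

theorem derAt_succ (n : ℕ) (f : TE) : derAt (n + 1) (logChain.step n f) = derAt n f :=
  (congrArg (logChain.of (n + 1)) (by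
    change thetaE (upFun f) / (xE * upE (mu n)) = upE (thetaE f / mu n)
    rw [thetaE_upFun, map_div₀, mul_div_mul_left _ _ xE_ne_zero]
    rfl)).trans (logChain.of_succ n _)

/-- The derivation `d/dx` of `T`. -/
def der : T → T := logChain.lift derAt derAt_succ

/-- The exponential of `f(log_n x)` is `(exp f)(log_n x)`. -/
def expTAt (n : ℕ) (f : TE) : T := logChain.of n (expE f)

theorem expTAt_succ (n : ℕ) (f : TE) : expTAt (n + 1) (logChain.step n f) = expTAt n f :=
  (congrArg (logChain.of (n + 1)) (expE_upFun f)).trans (logChain.of_succ n _)

/-- The exponential function of `T`. -/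
def exp : T → T := logChain.lift expTAt expTAt_succ

/-- The real constants in `T`. -/
def cst (r : ℝ) : T := logChain.of 0 (expChain.of 0 (incl ℝ ℝ r))

/-- The order topology on `T`. -/
instance : TopologicalSpace T := Preorder.topology T

/-- The function symbols `0, 1, +, *, ∂`, and also `exp` when the index is `true`. -/
inductive Sym : Bool → ℕ → Type
  | zero {e : Bool} : Sym e 0
  | one {e : Bool} : Sym e 0
  | add {e : Bool} : Sym e 2
  | mul {e : Bool} : Sym e 2
  | der {e : Bool} : Sym e 1
  | exp : Sym true 1

/-- `lang false` is the language of differential rings, `lang true` its extension by `exp`. -/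
def lang (e : Bool) : FirstOrder.Language where
  Functions := Sym e
  Relations _ := Empty

/-- The interpretation of the symbols in a field with two unary operations `d` and `ex`. -/
def interp {F : Type} [Field F] (d ex : F → F) {e : Bool} {n : ℕ} (s : Sym e n) :
    (Fin n → F) → F :=
  Sym.rec (motive := fun _ n _ => (Fin n → F) → F) (fun _ => 0) (fun _ => 1)
    (fun v => v 0 + v 1) (fun v => v 0 * v 1) (fun v => d (v 0)) (fun v => ex (v 0)) s

instance (e : Bool) : (lang e).Structure T where
  funMap := interp der exp
  RelMap r := r.elim

end Pool.Agent.MP_97be6c_lc
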